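import Pool.Agent.U723.TD.Fin

/-!
# Averaging over tuples of places
-/

set_option autoImplicit false

namespace Pool.Agent.U723.MR

open Finset
open Pool.Agent.U723.TD (Sep fin_of)

/-- an interval of length `2 S` contains at most `2 S + 1` of the numbers -/
lemma card_interval (L : ℕ) (c S : ℝ) (hS : 0 ≤ S) :
    (univ.filter fun t : Fin (L + 1) => |((t : ℕ) : ℝ) + c| < S).card ≤ ⌊2 * S⌋₊ + 1 := by
  classical
  obtain ⟨F, hF⟩ : ∃ F : Finset (Fin (L + 1)), F = univ.filter fun t : Fin (L + 1) => |((t : ℕ) : ℝ) + c| < S :=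
    ⟨_, rfl⟩
  rw [← hF]
  rcases F.eq_empty_or_nonempty with h | h
  · rw [h, card_empty]
    exact Nat.zero_le _
  · obtain ⟨a, ha⟩ : ∃ a, a = F.min' h := ⟨_, rfl⟩
    have ha1 : a ∈ F := by
      rw [ha]
      exact min'_mem _ _
    have hle : ∀ t ∈ F, (a : ℕ) ≤ t := by
      intro t ht
      have : a ≤ t := by
        rw [ha]
        exact min'_le _ _ ht
      exact this
    have h1 : F.card ≤ (range (⌊2 * S⌋₊ + 1)).card := by
      refine card_le_card_of_injOn (fun t => (t : ℕ) - a) (fun t ht => ?_) fun t ht t' ht' he => ?_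
      · rw [mem_coe] at ht
        have h2 := hle t ht
        rw [mem_coe, mem_range, Nat.lt_succ_iff]
        refine Nat.le_floor ?_
        rw [Nat.cast_sub h2]
        rw [hF, mem_filter] at ht ha1
        have h3 := abs_lt.1 ht.2
        have h4 := abs_lt.1 ha1.2
        linarith [h3.2, h4.1]
      · rw [mem_coe] at ht ht'
        have h2 := hle t ht
        have h3 := hle t' ht'
        have h4 : (t : ℕ) - a = (t' : ℕ) - a := he
        apply Fin.ext
        omega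
    rwa [card_range] at h1

lemma fiber_card {ι β : Type} [Fintype ι] [DecidableEq ι] [Fintype β] [DecidableEq β] (i : ι)
    (P : (ι → β) → Prop) [DecidablePred P] (M : ℕ)
    (h : ∀ j : ι → β, (univ.filter fun t : β => P (Function.update j i t)).card ≤ M) :
    (univ.filter P).card * Fintype.card β ≤ M * Fintype.card (ι → β) := by
  classical
  let f : (ι → β) → ({i' // i' ≠ i} → β) := fun j i' => j i'
  have h1 : (univ.filter P).card ≤ M * ((univ.filter P).image f).card := by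
    refine card_le_mul_card_image _ _ fun a ha => ?_
    obtain ⟨j, hj, rfl⟩ := mem_image.1 ha
    refine le_trans ?_ (h j)
    refine card_le_card_of_injOn (fun t => t i) (fun t ht => ?_) fun t ht t' ht' he => ?_
    · rw [mem_coe, mem_filter, mem_filter] at ht
      rw [mem_coe, mem_filter]
      refine ⟨mem_univ _, ?_⟩
      have h2 : Function.update j i (t i) = t := by
        funext i'
        by_cases hi : i' = i
        · subst hi
          rw [Function.update_self]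
        · rw [Function.update_of_ne hi]
          exact (congrFun ht.2 ⟨i', hi⟩).symm
      rw [h2]
      exact ht.1.2
    · rw [mem_coe, mem_filter, mem_filter] at ht ht'
      funext i'
      by_cases hi : i' = i
      · subst hi
        exact he
      · exact (congrFun ht.2 ⟨i', hi⟩).trans (congrFun ht'.2 ⟨i', hi⟩).symm
  have h2 : ((univ.filter P).image f).card ≤ Fintype.card ({i' // i' ≠ i} → β) := card_le_univ _
  have h3 : Fintype.card (ι → β) = Fintype.card β * Fintype.card ({i' // i' ≠ i} → β) := by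
    rw [Fintype.card_congr (Equiv.funSplitAt i β), Fintype.card_prod]
  rw [h3]
  calc (univ.filter P).card * Fintype.card β ≤ (M * Fintype.card ({i' // i' ≠ i} → β)) * Fintype.card β :=
        Nat.mul_le_mul_right _ (h1.trans (Nat.mul_le_mul_left _ h2))
    _ = _ := by ring

/-- the tuples of places which are not separated -/
def Bad {ι : Type} {m L : ℕ} (b : Fin m → ℕ) (S : ℝ) (j : ι → Fin (L + 1)) : Prop :=
  (∃ i, ((j i : ℕ) : ℝ) < S) ∨
    ∃ i i', i ≠ i' ∧ ∃ l l', |(((j i : ℕ) : ℝ) + b l) - (((j i' : ℕ) : ℝ) + b l')| < S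

open Classical in
lemma bad_card {ι : Type} [Fintype ι] {m L : ℕ} (b : Fin m → ℕ) (S : ℝ) (hS : 0 ≤ S) :
    (univ.filter fun j : ι → Fin (L + 1) => Bad b S j).card * (L + 1) ≤
      (Fintype.card ι + Fintype.card ι * Fintype.card ι * (m * m)) * (⌊2 * S⌋₊ + 1) * (L + 1) ^ Fintype.card ι := by
  let Pq : ι ⊕ (ι × ι) × (Fin m × Fin m) → (ι → Fin (L + 1)) → Prop := fun q j =>
    Sum.elim (fun i => |((j i : ℕ) : ℝ) + 0| < S)
      (fun q => q.1.1 ≠ q.1.2 ∧ |(((j q.1.1 : ℕ) : ℝ) + b q.2.1) - (((j q.1.2 : ℕ) : ℝ) + b q.2.2)| < S) q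
  have h1 : (univ.filter fun j : ι → Fin (L + 1) => Bad b S j) ⊆ univ.biUnion fun q => univ.filter (Pq q) := by
    intro j hj
    rw [mem_filter] at hj
    rw [mem_biUnion]
    rcases hj.2 with ⟨i, hi⟩ | ⟨i, i', hi, l, l', hl⟩
    · refine ⟨Sum.inl i, mem_univ _, ?_⟩
      rw [mem_filter]
      refine ⟨mem_univ _, ?_⟩
      show |((j i : ℕ) : ℝ) + 0| < S
      rw [add_zero, abs_of_nonneg (Nat.cast_nonneg _)]
      exact hi
    · refine ⟨Sum.inr ((i, i'), (l, l')), mem_univ _, ?_⟩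
      rw [mem_filter]
      exact ⟨mem_univ _, hi, hl⟩
  have h2 : ∀ q, (univ.filter (Pq q)).card * (L + 1) ≤ (⌊2 * S⌋₊ + 1) * (L + 1) ^ Fintype.card ι := by
    intro q
    have e1 : Fintype.card (ι → Fin (L + 1)) = (L + 1) ^ Fintype.card ι := by
      rw [Fintype.card_fun, Fintype.card_fin]
    have e2 : Fintype.card (Fin (L + 1)) = L + 1 := Fintype.card_fin _
    rcases q with i | ⟨⟨i, i'⟩, l, l'⟩
    · have := fiber_card i (Pq (Sum.inl i)) (⌊2 * S⌋₊ + 1) fun j => by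
        refine le_trans (card_le_card fun t ht => ?_) (card_interval L 0 S hS)
        rw [mem_filter] at ht ⊢
        refine ⟨mem_univ _, ?_⟩
        have h3 : |((Function.update j i t i : ℕ) : ℝ) + 0| < S := ht.2
        rwa [Function.update_self] at h3
      rwa [e1, e2] at this
    · have := fiber_card i (Pq (Sum.inr ((i, i'), (l, l')))) (⌊2 * S⌋₊ + 1) fun j => by
        refine le_trans (card_le_card fun t ht => ?_)
          (card_interval L ((b l : ℝ) - (((j i' : ℕ) : ℝ) + b l')) S hS)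
        rw [mem_filter] at ht ⊢
        refine ⟨mem_univ _, ?_⟩
        obtain ⟨h3, h4⟩ : i ≠ i' ∧ |(((Function.update j i t i : ℕ) : ℝ) + b l) -
          (((Function.update j i t i' : ℕ) : ℝ) + b l')| < S := ht.2
        rw [Function.update_self, Function.update_of_ne (Ne.symm h3)] at h4
        rwa [show ((t : ℕ) : ℝ) + ((b l : ℝ) - (((j i' : ℕ) : ℝ) + b l')) =
          (((t : ℕ) : ℝ) + b l) - (((j i' : ℕ) : ℝ) + b l') by ring]
      rwa [e1, e2] at this
  have h3 : (univ.filter fun j : ι → Fin (L + 1) => Bad b S j).card * (L + 1) ≤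
      ∑ q, (univ.filter (Pq q)).card * (L + 1) := by
    rw [← sum_mul]
    exact Nat.mul_le_mul_right _ ((card_le_card h1).trans card_biUnion_le)
  refine h3.trans ((sum_le_sum fun q _ => h2 q).trans (le_of_eq ?_))
  rw [sum_const, card_univ, smul_eq_mul, Fintype.card_sum, Fintype.card_prod, Fintype.card_prod, Fintype.card_prod,
    Fintype.card_fin]
  ring

lemma large (C : ℝ) (hC : 0 ≤ C) : ∃ L₀ : ℕ, ∀ L : ℕ, L₀ ≤ L → C * (2 * Real.sqrt (2 * L) + 1) ≤ L := by
  refine ⟨⌈32 * C ^ 2 + 2 * C⌉₊, fun L hL => ?_⟩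
  have h1 : 32 * C ^ 2 + 2 * C ≤ L := Nat.ceil_le.1 hL
  have hL0 : (0 : ℝ) ≤ L := Nat.cast_nonneg _
  have h2 : 4 * C * Real.sqrt (2 * L) ≤ L := by
    have h3 : 4 * C * Real.sqrt (2 * L) = Real.sqrt ((4 * C) ^ 2 * (2 * L)) := by
      rw [Real.sqrt_mul (x := (4 * C) ^ 2) (by positivity) (2 * (L : ℝ)), Real.sqrt_sq (by positivity)]
    rw [h3]
    refine Real.sqrt_le_iff.2 ⟨hL0, ?_⟩
    nlinarith
  nlinarith

theorem avg {ι : Type} [Fintype ι] [Nonempty ι] (m w : ℕ) (hw : 1 ≤ w) (η : ℝ) (hη : 0 < η) :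
    ∃ η' : ℝ, 0 < η' ∧ ∃ L₀ : ℕ, ∀ L : ℕ, L₀ ≤ L → ∀ (N : ℕ) (b : Fin m → ℕ), (∀ l, b l ≤ L) →
      (∀ l l', l ≠ l' → (L : ℝ) ^ (1 / (w : ℝ)) ≤ |(b l : ℝ) - b l'|) →
      ∀ Q : (ι → Fin (L + 1)) → ℕ → Prop,
      (∀ j, Sep (2 * L) (1 / (2 * w)) (fun p : ι × Fin m => (j p.1 : ℕ) + b p.2) →
        ({n : ℕ | (1 ≤ n ∧ n ≤ N) ∧ Q j n}.ncard : ℝ) ≤ η' * N) →
      ({n : ℕ | (1 ≤ n ∧ n ≤ N) ∧ ∃ J : Finset (Fin (L + 1)), L ≤ w * J.card ∧
        ∀ j : ι → Fin (L + 1), (∀ i, j i ∈ J) → Q j n}.ncard : ℝ) ≤ η * N := by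
  classical
  have hw0 : (0 : ℝ) < w := by exact_mod_cast hw
  have hw1 : (1 : ℝ) ≤ w := by exact_mod_cast hw
  obtain ⟨k, hk⟩ : ∃ k, k = Fintype.card ι := ⟨_, rfl⟩
  obtain ⟨c, hc⟩ : ∃ c : ℕ, c = Fintype.card ι + Fintype.card ι * Fintype.card ι * (m * m) := ⟨_, rfl⟩
  obtain ⟨L₀, hL₀⟩ := large (c * (2 * (2 * w) ^ k)) (by positivity)
  refine ⟨η / (2 * (2 * w) ^ k), by positivity, L₀ + 2, fun L hL N b hbL hb Q hQ => ?_⟩
  have hL2 : (2 : ℝ) ≤ L := by
    have : 2 ≤ L := by omega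
    exact_mod_cast this
  have hL0 : (0 : ℝ) < L := by linarith
  obtain ⟨S, hS⟩ : ∃ S : ℝ, S = (2 * (L : ℝ)) ^ (1 / (2 * (w : ℝ))) := ⟨_, rfl⟩
  have hS0 : 0 ≤ S := by rw [hS]; positivity
  have hS1 : S ≤ Real.sqrt (2 * L) := by
    rw [hS, Real.sqrt_eq_rpow]
    refine Real.rpow_le_rpow_of_exponent_le (by linarith) ?_
    rw [div_le_div_iff₀ (by positivity) (by norm_num)]
    linarith
  have hS2 : S ≤ (L : ℝ) ^ (1 / (w : ℝ)) := by
    have h1 : (L : ℝ) ^ (1 / (w : ℝ)) = ((L : ℝ) ^ (2 : ℝ)) ^ (1 / (2 * (w : ℝ))) := by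
      rw [← Real.rpow_mul hL0.le]
      congr 1
      field_simp
    rw [h1, hS]
    refine Real.rpow_le_rpow (by positivity) ?_ (by positivity)
    rw [Real.rpow_two]
    nlinarith
  have hbad := bad_card (ι := ι) (L := L) b S hS0
  rw [← hc, ← hk] at hbad
  obtain ⟨B, hB⟩ : ∃ B, B = (univ.filter fun j : ι → Fin (L + 1) => Bad b S j) := ⟨_, rfl⟩
  rw [← hB] at hbad
  -- few bad tuples
  have hB1 : (B.card : ℝ) ≤ ((L : ℝ) / w) ^ k / 2 := by
    have h1 : ((B.card : ℝ) * (L + 1)) ≤ c * (2 * Real.sqrt (2 * L) + 1) * (L + 1) ^ k := by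
      have h2 : ((B.card * (L + 1) : ℕ) : ℝ) ≤ ((c * (⌊2 * S⌋₊ + 1) * (L + 1) ^ k : ℕ) : ℝ) := Nat.cast_le.2 hbad
      push_cast at h2
      refine h2.trans ?_
      refine mul_le_mul_of_nonneg_right (mul_le_mul_of_nonneg_left ?_ (Nat.cast_nonneg _)) (by positivity)
      have h3 : (⌊2 * S⌋₊ : ℝ) ≤ 2 * S := Nat.floor_le (by positivity)
      linarith
    have h2 : ((L : ℝ) + 1) ^ k ≤ 2 ^ k * (L : ℝ) ^ k := by
      rw [← mul_pow]
      exact pow_le_pow_left₀ (by positivity) (by linarith) k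
    have h3 := hL₀ L (by omega)
    have h4 : (B.card : ℝ) * (L + 1) ≤ ((L : ℝ) / w) ^ k / 2 * (L + 1) := by
      have h5 : (c : ℝ) * (2 * Real.sqrt (2 * L) + 1) * (L + 1) ^ k ≤
          c * (2 * Real.sqrt (2 * L) + 1) * (2 ^ k * (L : ℝ) ^ k) :=
        mul_le_mul_of_nonneg_left h2 (by positivity)
      have h6 : (c : ℝ) * (2 * Real.sqrt (2 * L) + 1) * (2 ^ k * (L : ℝ) ^ k) =
          (c * (2 * (2 * w) ^ k) * (2 * Real.sqrt (2 * L) + 1)) * (((L : ℝ) / w) ^ k / 2) := by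
        rw [div_pow, mul_pow]
        field_simp
      have h7 : (c * (2 * (2 * w) ^ k) * (2 * Real.sqrt (2 * L) + 1)) * (((L : ℝ) / w) ^ k / 2) ≤
          (L + 1) * (((L : ℝ) / w) ^ k / 2) :=
        mul_le_mul_of_nonneg_right (h3.trans (by linarith)) (by positivity)
      calc (B.card : ℝ) * (L + 1) ≤ _ := h1
        _ ≤ _ := h5
        _ = _ := h6
        _ ≤ _ := h7
        _ = _ := by ring
    exact le_of_mul_le_mul_right h4 (by positivity)
  -- the good tuples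
  have hgood : ∀ j : ι → Fin (L + 1), j ∉ B → Sep (2 * L) (1 / (2 * w)) (fun p : ι × Fin m => (j p.1 : ℕ) + b p.2) := by
    intro j hj
    rw [hB, mem_filter, not_and] at hj
    have hj' := hj (mem_univ _)
    unfold Bad at hj'
    push Not at hj'
    obtain ⟨h1, h2⟩ := hj'
    have e : (((2 * L : ℕ) : ℝ)) ^ (1 / (2 * (w : ℝ))) = S := by
      rw [hS]
      push_cast
      rfl
    refine ⟨fun p => ⟨?_, ?_⟩, fun p p' hp => ?_⟩
    · rw [e]
      push_cast
      have := h1 p.1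
      have h3 : (0 : ℝ) ≤ b p.2 := Nat.cast_nonneg _
      linarith
    · have h3 : (j p.1 : ℕ) ≤ L := by
        have := (j p.1).isLt
        omega
      have h4 := hbL p.2
      show (j p.1 : ℕ) + b p.2 ≤ 2 * L
      omega
    · rw [e]
      push_cast
      by_cases hi : p.1 = p'.1
      · have hl : p.2 ≠ p'.2 := fun h => hp (Prod.ext hi h)
        rw [hi, show ((j p'.1 : ℕ) : ℝ) + b p.2 - (((j p'.1 : ℕ) : ℝ) + b p'.2) = b p.2 - b p'.2 by ring]
        exact hS2.trans (hb _ _ hl)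
      · exact h2 _ _ hi _ _
  -- double counting
  obtain ⟨E, hE⟩ : ∃ E : Finset ℕ, E = (fin_of N fun n => ∃ J : Finset (Fin (L + 1)), L ≤ w * J.card ∧
        ∀ j : ι → Fin (L + 1), (∀ i, j i ∈ J) → Q j n).toFinset := ⟨_, rfl⟩
  rw [Set.ncard_eq_toFinset_card _ (fin_of N fun n => ∃ J : Finset (Fin (L + 1)), L ≤ w * J.card ∧
        ∀ j : ι → Fin (L + 1), (∀ i, j i ∈ J) → Q j n), ← hE]
  have hEn : ∀ n ∈ E, (1 ≤ n ∧ n ≤ N) ∧ ∃ J : Finset (Fin (L + 1)), L ≤ w * J.card ∧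
        ∀ j : ι → Fin (L + 1), (∀ i, j i ∈ J) → Q j n := by
    intro n hn
    rw [hE, Set.Finite.mem_toFinset] at hn
    exact hn
  have hJ : ∀ n : ℕ, ∃ J : Finset (Fin (L + 1)), n ∈ E → L ≤ w * J.card ∧
        ∀ j : ι → Fin (L + 1), (∀ i, j i ∈ J) → Q j n := by
    intro n
    by_cases hn : n ∈ E
    · obtain ⟨-, J, h⟩ := hEn n hn
      exact ⟨J, fun _ => h⟩
    · exact ⟨∅, fun h => absurd h hn⟩
  choose J hJ using hJ
  let r : ℕ → (ι → Fin (L + 1)) → Prop := fun n j => ∀ i, j i ∈ J n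
  have hdc : ∑ n ∈ E, (bipartiteAbove r (univ \ B) n).card = ∑ j ∈ univ \ B, (bipartiteBelow r E j).card :=
    sum_card_bipartiteAbove_eq_sum_card_bipartiteBelow r
  have hup : ∀ j ∈ univ \ B, ((bipartiteBelow r E j).card : ℝ) ≤ η / (2 * (2 * w) ^ k) * N := by
    intro j hj
    rw [mem_sdiff] at hj
    refine le_trans ?_ (hQ j (hgood j hj.2))
    rw [Set.ncard_eq_toFinset_card _ (fin_of N (Q j))]
    refine Nat.cast_le.2 (card_le_card fun n hn => ?_)
    rw [mem_bipartiteBelow] at hn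
    rw [Set.Finite.mem_toFinset]
    exact ⟨(hEn n hn.1).1, (hJ n hn.1).2 j hn.2⟩
  have hlow : ∀ n ∈ E, ((L : ℝ) / w) ^ k / 2 ≤ ((bipartiteAbove r (univ \ B) n).card : ℝ) := by
    intro n hn
    have h1 : (Fintype.piFinset fun _ : ι => J n) ⊆ bipartiteAbove r (univ \ B) n ∪ B := by
      intro j hj
      rw [Fintype.mem_piFinset] at hj
      rw [mem_union]
      by_cases hjB : j ∈ B
      · exact Or.inr hjB
      · left
        rw [mem_bipartiteAbove]
        exact ⟨mem_sdiff.2 ⟨mem_univ _, hjB⟩, hj⟩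
    have h2 := (card_le_card h1).trans (card_union_le _ _)
    rw [Fintype.card_piFinset, prod_const, card_univ, ← hk] at h2
    have h3 : ((L : ℝ) / w) ^ k ≤ ((J n).card : ℝ) ^ k := by
      refine pow_le_pow_left₀ (by positivity) ?_ k
      rw [div_le_iff₀ hw0, mul_comm]
      exact_mod_cast (hJ n hn).1
    have h4 : (((J n).card ^ k : ℕ) : ℝ) ≤ ((bipartiteAbove r (univ \ B) n).card : ℝ) + B.card := by
      exact_mod_cast h2
    push_cast at h4
    linarith
  have h1 : (E.card : ℝ) * (((L : ℝ) / w) ^ k / 2) ≤ ((L : ℝ) + 1) ^ k * (η / (2 * (2 * w) ^ k) * N) := by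
    have h2 : (E.card : ℝ) * (((L : ℝ) / w) ^ k / 2) ≤ ∑ n ∈ E, ((bipartiteAbove r (univ \ B) n).card : ℝ) := by
      have := sum_le_sum hlow
      rwa [sum_const, nsmul_eq_mul] at this
    have h3 : ∑ n ∈ E, ((bipartiteAbove r (univ \ B) n).card : ℝ) =
        ∑ j ∈ univ \ B, ((bipartiteBelow r E j).card : ℝ) := by exact_mod_cast hdc
    have h4 := sum_le_sum hup
    rw [sum_const, nsmul_eq_mul] at h4
    refine h2.trans (h3.le.trans (h4.trans (mul_le_mul_of_nonneg_right ?_ (by positivity))))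
    have h5 : (univ \ B).card ≤ (L + 1) ^ k := by
      refine (card_le_univ _).trans (le_of_eq ?_)
      rw [Fintype.card_fun, Fintype.card_fin, hk]
    exact_mod_cast h5
  have h2 : ((L : ℝ) + 1) ^ k * (η / (2 * (2 * w) ^ k) * N) ≤ (η * N) * (((L : ℝ) / w) ^ k / 2) := by
    have h3 : ((L : ℝ) + 1) ^ k ≤ (2 * L) ^ k := pow_le_pow_left₀ (by positivity) (by linarith) k
    refine (mul_le_mul_of_nonneg_right h3 (by positivity)).trans (le_of_eq ?_)
    rw [div_pow, mul_pow, mul_pow]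
    field_simp
  have h3 : (0 : ℝ) < ((L : ℝ) / w) ^ k / 2 := by positivity
  exact le_of_mul_le_mul_right (h1.trans h2) h3

end Pool.Agent.U723.MR
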