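import Pool.Agent.U723.MR.Avg

/-!
# Relations at several places with common parameters
-/

set_option autoImplicit false

namespace Pool.Agent.U723.MR

open Finset
open Pool.Agent.U723.TD (Sep Close Rare Simple Root AlgOver simple_finite fin_of IsAlg few)

lemma few_type {γ : ℕ → ℝ} (h : Rare γ) (ι τ : Type) [Fintype ι] [Fintype τ]
    (hs : Fintype.card τ < Fintype.card ι) (d : ℕ) (σ η : ℝ) (hσ : 0 < σ) (hη : 0 < η) :
    ∃ δ : ℝ, 0 < δ ∧ ∃ r₀ : ℕ, ∀ r : ℕ, r₀ ≤ r → ∀ N : ℕ, 1 ≤ N → r * Real.log r ≤ Real.log N →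
      ∀ b : ι → ℕ, Sep r σ b → ∀ P : ι → Polynomial (MvPolynomial τ ℝ),
      (∀ i, (P i).natDegree ≤ d ∧ ∀ j, ((P i).coeff j).totalDegree ≤ d) →
      ({n : ℕ | (1 ≤ n ∧ n ≤ N) ∧ ∃ (u : τ → ℝ) (y : ι → ℝ),
        Close γ (δ * Real.sqrt (Real.log r)) n b y ∧ ∀ i, (P i).map (MvPolynomial.eval u) ≠ 0 ∧
          ((P i).map (MvPolynomial.eval u)).eval (y i) = 0}.ncard : ℝ) ≤ η * N := by
  classical
  obtain ⟨δ, hδ, r₀, H⟩ := few h (Fintype.card ι) (Fintype.card τ) d hs σ η hσ hη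
  refine ⟨δ, hδ, r₀, fun r hr N hN hrN b hb P hP => ?_⟩
  let e : ι ≃ Fin (Fintype.card ι) := Fintype.equivFin ι
  let f : τ ≃ Fin (Fintype.card τ) := Fintype.equivFin τ
  have hmap : ∀ (i : Fin (Fintype.card ι)) (u : τ → ℝ),
      ((P (e.symm i)).map ((MvPolynomial.rename f : MvPolynomial τ ℝ →ₐ[ℝ] _) : MvPolynomial τ ℝ →+* _)).map
        (MvPolynomial.eval fun t => u (f.symm t)) = (P (e.symm i)).map (MvPolynomial.eval u) := by
    intro i u
    rw [Polynomial.map_map]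
    congr 1
    refine MvPolynomial.ringHom_ext (fun n => ?_) fun t => ?_
    · simp
    · simp
  refine le_trans ?_ (H r hr N hN hrN (fun i => b (e.symm i))
    ⟨fun i => hb.1 _, fun i j hij => hb.2 _ _ fun hh => hij (e.symm.injective hh)⟩
    (fun i => (P (e.symm i)).map ((MvPolynomial.rename f : MvPolynomial τ ℝ →ₐ[ℝ] _) : MvPolynomial τ ℝ →+* _))
    fun i => ⟨Polynomial.natDegree_map_le.trans (hP _).1, fun j => ?_⟩)
  · refine Nat.cast_le.2 (Set.ncard_le_ncard ?_ (fin_of _ _))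
    rintro n ⟨hn, u, y, hy, hu⟩
    refine ⟨hn, fun t => u (f.symm t), fun i => y (e.symm i), fun i => hy (e.symm i), fun i => ?_⟩
    rw [hmap]
    exact hu (e.symm i)
  · rw [Polynomial.coeff_map]
    exact (MvPolynomial.totalDegree_rename_le _ _).trans ((hP _).2 j)

lemma subst_degree {τ τ' : Type} [Fintype τ] (g : τ → MvPolynomial τ' ℝ) (hg : ∀ t, (g t).totalDegree ≤ 1)
    (f : MvPolynomial τ ℤ) :
    (MvPolynomial.eval₂Hom (Int.castRingHom (MvPolynomial τ' ℝ)) g f).totalDegree ≤ f.totalDegree := by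
  classical
  rw [MvPolynomial.coe_eval₂Hom, MvPolynomial.eval₂_eq']
  refine (MvPolynomial.totalDegree_finsetSum _ _).trans (Finset.sup_le fun e he => ?_)
  refine (MvPolynomial.totalDegree_mul _ _).trans ?_
  have h1 : ((Int.castRingHom (MvPolynomial τ' ℝ)) (f.coeff e)).totalDegree = 0 := by
    have : (Int.castRingHom (MvPolynomial τ' ℝ)) (f.coeff e) = MvPolynomial.C ((f.coeff e : ℤ) : ℝ) := by
      simp
    rw [this, MvPolynomial.totalDegree_C]
  rw [h1, zero_add]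
  refine (MvPolynomial.totalDegree_finsetProd _ _).trans ?_
  refine le_trans (sum_le_sum (g := fun i => e i) fun i _ => ?_) ?_
  · refine (MvPolynomial.totalDegree_pow _ _).trans ?_
    calc e i * (g i).totalDegree ≤ e i * 1 := Nat.mul_le_mul_left _ (hg i)
      _ = e i := mul_one _
  · refine le_trans ?_ (MvPolynomial.le_totalDegree he)
    rw [Finsupp.sum_fintype _ _ (by simp)]

/-- the substitution at the place `i` with data `ξ` -/
noncomputable def sb {w : ℕ} (i : Fin (w + 1)) (ξ : Fin w → ℝ) :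
    MvPolynomial ((Fin w ⊕ Fin w) ⊕ Fin w) ℤ →+* MvPolynomial (Fin w ⊕ (Fin (w + 1) × Fin w)) ℝ :=
  MvPolynomial.eval₂Hom (Int.castRingHom _) (Sum.elim (Sum.elim (fun t => MvPolynomial.X (Sum.inl t))
    (fun t => MvPolynomial.C (ξ t))) (fun m => MvPolynomial.X (Sum.inr (i, m))))

lemma sb_degree {w : ℕ} (i : Fin (w + 1)) (ξ : Fin w → ℝ) (f : MvPolynomial ((Fin w ⊕ Fin w) ⊕ Fin w) ℤ) :
    (sb i ξ f).totalDegree ≤ f.totalDegree := by
  refine subst_degree _ (fun t => ?_) f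
  rcases t with (t | t) | t
  · simp [MvPolynomial.totalDegree_X]
  · simp
  · simp [MvPolynomial.totalDegree_X]

lemma eval_sb {w : ℕ} (i : Fin (w + 1)) (ξ : Fin w → ℝ) (v : Fin w ⊕ (Fin (w + 1) × Fin w) → ℝ) :
    (MvPolynomial.eval v).comp (sb i ξ) = MvPolynomial.eval₂Hom (Int.castRingHom ℝ)
      (Sum.elim (Sum.elim (fun t => v (Sum.inl t)) ξ) (fun m => v (Sum.inr (i, m)))) := by
  refine MvPolynomial.ringHom_ext (fun n => ?_) fun t => ?_
  · simp [sb]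
  · rcases t with (t | t) | t <;> simp [sb]

/-- the system of equations for the choice `l` of the algebraic numbers and the equations `Π` -/
noncomputable def sys {w : ℕ} (l : Fin (w + 1) → Fin (w + 1))
    (F : Fin (w + 1) → Polynomial (MvPolynomial ((Fin w ⊕ Fin w) ⊕ Fin w) ℤ)) (ξ : Fin (w + 1) → Fin w → ℝ)
    (ip : Fin (w + 1) × Fin (w + 1)) : Polynomial (MvPolynomial (Fin w ⊕ (Fin (w + 1) × Fin w)) ℝ) :=
  Fin.insertNth (α := fun _ => Polynomial (MvPolynomial (Fin w ⊕ (Fin (w + 1) × Fin w)) ℝ)) (l ip.1)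
    ((F ip.1).map (sb ip.1 (ξ ip.1)))
    (fun m => Polynomial.X - Polynomial.C (MvPolynomial.X (Sum.inr (ip.1, m)))) ip.2

lemma sys_same {w : ℕ} (l : Fin (w + 1) → Fin (w + 1))
    (F : Fin (w + 1) → Polynomial (MvPolynomial ((Fin w ⊕ Fin w) ⊕ Fin w) ℤ)) (ξ : Fin (w + 1) → Fin w → ℝ)
    (i : Fin (w + 1)) : sys l F ξ (i, l i) = (F i).map (sb i (ξ i)) := by
  unfold sys
  exact Fin.insertNth_apply_same _ _ _

lemma sys_other {w : ℕ} (l : Fin (w + 1) → Fin (w + 1))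
    (F : Fin (w + 1) → Polynomial (MvPolynomial ((Fin w ⊕ Fin w) ⊕ Fin w) ℤ)) (ξ : Fin (w + 1) → Fin w → ℝ)
    (i : Fin (w + 1)) (m : Fin w) : sys l F ξ (i, (l i).succAbove m) =
      Polynomial.X - Polynomial.C (MvPolynomial.X (Sum.inr (i, m))) := by
  unfold sys
  exact Fin.insertNth_apply_succAbove _ _ _ _

/-- one of the numbers is algebraic over the field generated by the others, `u` and `x` -/
def Dep {w : ℕ} (u x : Fin w → ℝ) (y : Fin (w + 1) → ℝ) : Prop :=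
  ∃ l : Fin (w + 1), AlgOver w w (Sum.elim (Sum.elim u x) fun m => y (l.succAbove m)) (y l)

theorem few_rel {γ : ℕ → ℝ} (h : Rare γ) (w : ℕ) (hw : 1 ≤ w) (σ η : ℝ) (hσ : 0 < σ) (hη : 0 < η) :
    ∃ δ : ℝ, 0 < δ ∧ ∃ r₀ : ℕ, ∀ r : ℕ, r₀ ≤ r → ∀ N : ℕ, 1 ≤ N → r * Real.log r ≤ Real.log N →
      ∀ b : Fin (w + 1) × Fin (w + 1) → ℕ, Sep r σ b → ∀ ξ : Fin (w + 1) → Fin w → ℝ,
      ({n : ℕ | (1 ≤ n ∧ n ≤ N) ∧ ∃ u : Fin w → ℝ, ∀ i, ∃ y : Fin (w + 1) → ℝ,
        (∀ l, |γ (n + b (i, l)) - y l| ≤ δ * Real.sqrt (Real.log r) / Real.log (γ n)) ∧ Dep u (ξ i) y}.ncard : ℝ) ≤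
        η * N := by
  classical
  obtain ⟨C, hC⟩ : ∃ C : Finset ((Fin (w + 1) → Fin (w + 1)) ×
      (Fin (w + 1) → Polynomial (MvPolynomial ((Fin w ⊕ Fin w) ⊕ Fin w) ℤ))),
      C = univ ×ˢ (simple_finite (τ := (Fin w ⊕ Fin w) ⊕ Fin w) (w + 1) w w).toFinset := ⟨_, rfl⟩
  obtain ⟨δ, hδ, r₀, H⟩ := few_type h (Fin (w + 1) × Fin (w + 1)) (Fin w ⊕ (Fin (w + 1) × Fin w)) (by
    simp only [Fintype.card_sum, Fintype.card_prod, Fintype.card_fin]
    nlinarith) w σ (η / (C.card + 1)) hσ (by positivity)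
  refine ⟨δ, hδ, r₀, fun r hr N hN hrN b hb ξ => ?_⟩
  let Q : ((Fin (w + 1) → Fin (w + 1)) ×
      (Fin (w + 1) → Polynomial (MvPolynomial ((Fin w ⊕ Fin w) ⊕ Fin w) ℤ))) → ℕ → Prop := fun c n =>
    ∃ (v : Fin w ⊕ (Fin (w + 1) × Fin w) → ℝ) (y : Fin (w + 1) × Fin (w + 1) → ℝ),
        Close γ (δ * Real.sqrt (Real.log r)) n b y ∧ ∀ i, (sys c.1 c.2 ξ i).map (MvPolynomial.eval v) ≠ 0 ∧
          ((sys c.1 c.2 ξ i).map (MvPolynomial.eval v)).eval (y i) = 0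
  have hE : ∀ c ∈ C, (({n : ℕ | (1 ≤ n ∧ n ≤ N) ∧ Q c n}).ncard : ℝ) ≤ η / (C.card + 1) * N := by
    intro c hc
    refine H r hr N hN hrN b hb _ fun ip => ?_
    rw [hC, mem_product, Set.Finite.mem_toFinset] at hc
    obtain ⟨i, p⟩ := ip
    rcases Fin.eq_self_or_eq_succAbove (c.1 i) p with rfl | ⟨m, rfl⟩
    · rw [sys_same]
      refine ⟨Polynomial.natDegree_map_le.trans (hc.2 i).1, fun j => ?_⟩
      rw [Polynomial.coeff_map]
      exact (sb_degree _ _ _).trans ((hc.2 i).2 j).1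
    · rw [sys_other]
      refine ⟨(Polynomial.natDegree_X_sub_C _).le.trans hw, fun j => ?_⟩
      rw [Polynomial.coeff_sub, Polynomial.coeff_X, Polynomial.coeff_C]
      refine (MvPolynomial.totalDegree_sub _ _).trans (max_le ?_ ?_)
      · split_ifs <;> simp
      · split_ifs
        · rw [MvPolynomial.totalDegree_X]
          exact hw
        · simp
  have hsub : {n : ℕ | (1 ≤ n ∧ n ≤ N) ∧ ∃ u : Fin w → ℝ, ∀ i, ∃ y : Fin (w + 1) → ℝ,
        (∀ l, |γ (n + b (i, l)) - y l| ≤ δ * Real.sqrt (Real.log r) / Real.log (γ n)) ∧ Dep u (ξ i) y} ⊆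
      ↑(C.biUnion fun c => (fin_of N (Q c)).toFinset) := by
    rintro n ⟨hn, u, hu⟩
    choose y hy l F hF hr using hu
    simp only [coe_biUnion, Set.mem_iUnion]
    refine ⟨(l, F), mem_coe.2 ?_, ?_⟩
    · rw [hC, mem_product, Set.Finite.mem_toFinset]
      exact ⟨mem_univ _, hF⟩
    rw [Set.Finite.coe_toFinset]
    refine ⟨hn, Sum.elim u fun im => y im.1 ((l im.1).succAbove im.2), fun ip => y ip.1 ip.2,
      fun ip => hy ip.1 ip.2, fun ip => ?_⟩
    obtain ⟨i, p⟩ := ip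
    have e0 : (MvPolynomial.eval (Sum.elim u fun im : Fin (w + 1) × Fin w =>
        y im.1 ((l im.1).succAbove im.2))).comp (sb i (ξ i)) =
        MvPolynomial.eval₂Hom (Int.castRingHom ℝ)
          (Sum.elim (Sum.elim u (ξ i)) fun m => y i ((l i).succAbove m)) := by
      rw [eval_sb]
      rfl
    rcases Fin.eq_self_or_eq_succAbove (l i) p with rfl | ⟨m, rfl⟩
    · rw [sys_same, Polynomial.map_map, e0]
      exact hr i
    · rw [sys_other, Polynomial.map_sub, Polynomial.map_X, Polynomial.map_C, MvPolynomial.eval_X]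
      refine ⟨Polynomial.X_sub_C_ne_zero _, ?_⟩
      simp
  have h1 := Set.ncard_le_ncard hsub (finite_toSet _)
  rw [Set.ncard_coe_finset] at h1
  have h2 : ((C.biUnion fun c => (fin_of N (Q c)).toFinset).card : ℝ) ≤
      ∑ c ∈ C, ({n : ℕ | (1 ≤ n ∧ n ≤ N) ∧ Q c n}.ncard : ℝ) := by
    refine (Nat.cast_le.2 card_biUnion_le).trans (le_of_eq ?_)
    rw [Nat.cast_sum]
    refine sum_congr rfl fun P _ => ?_
    rw [Set.ncard_eq_toFinset_card _ (fin_of N (Q P))]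
  have h3 := (Nat.cast_le.2 h1).trans (h2.trans (sum_le_sum hE))
  rw [sum_const, nsmul_eq_mul] at h3
  refine h3.trans ?_
  have hCp : (0 : ℝ) < C.card + 1 := by positivity
  have h4 : (C.card : ℝ) * (η / (C.card + 1) * N) = (C.card / (C.card + 1)) * (η * N) := by ring
  rw [h4]
  have h5 : (C.card : ℝ) / (C.card + 1) ≤ 1 := by
    rw [div_le_one hCp]
    linarith
  calc (C.card : ℝ) / (C.card + 1) * (η * N) ≤ 1 * (η * N) := mul_le_mul_of_nonneg_right h5 (by positivity)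
    _ = η * N := one_mul _

end Pool.Agent.U723.MR
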