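import Pool.Agent.U723.MR.Rel

/-!
# Relations along runs: the final form
-/

set_option autoImplicit false

namespace Pool.Agent.U723.MR

open Finset Filter
open Pool.Agent.U723.TD (Sep Close Rare fin_of big diag)

/-- exponents as finitely supported functions -/
noncomputable def emb {σ : Type} [Fintype σ] [DecidableEq σ] (w : ℕ) : (σ → Fin (w + 1)) ↪ (σ →₀ ℕ) where
  toFun e := Finsupp.equivFunOnFinite.symm fun s => (e s : ℕ)
  inj' e e' h := by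
    funext s
    have := DFunLike.congr_fun h s
    simp only [Finsupp.equivFunOnFinite_symm_apply_apply] at this
    exact Fin.ext this

lemma exists_emb {σ : Type} [Fintype σ] [DecidableEq σ] {R : Type} [CommSemiring R] {w : ℕ} {q : MvPolynomial σ R}
    (hq : q.totalDegree ≤ w) {d : σ →₀ ℕ} (hd : q.coeff d ≠ 0) : ∃ e : σ → Fin (w + 1), emb w e = d := by
  have h2 : ∀ s, d s < w + 1 := by
    intro s
    have h3 := (MvPolynomial.le_totalDegree (MvPolynomial.mem_support_iff.2 hd)).trans hq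
    rw [Finsupp.sum_fintype _ _ (by simp)] at h3
    have h4 := single_le_sum (f := fun i => d i) (fun i _ => Nat.zero_le _) (mem_univ s)
    omega
  refine ⟨fun s => ⟨d s, h2 s⟩, ?_⟩
  ext s
  rfl

lemma eval_box {σ : Type} [Fintype σ] [DecidableEq σ] (w : ℕ) (q : MvPolynomial σ ℝ) (hq : q.totalDegree ≤ w)
    (v : σ → ℝ) : MvPolynomial.eval v q = ∑ e : σ → Fin (w + 1), q.coeff (emb w e) * ∏ s, v s ^ (e s : ℕ) := by
  classical
  rw [MvPolynomial.eval_eq']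
  have h1 : ∑ e : σ → Fin (w + 1), q.coeff (emb w e) * ∏ s, v s ^ (e s : ℕ) =
      ∑ d ∈ univ.map (emb w), q.coeff d * ∏ s, v s ^ d s := by
    rw [sum_map]
    rfl
  rw [h1]
  refine sum_subset (fun d hd => ?_) fun d _ hd => ?_
  · obtain ⟨e, he⟩ := exists_emb hq (MvPolynomial.mem_support_iff.1 hd)
    rw [Finset.mem_map]
    exact ⟨e, mem_univ _, he⟩
  · rw [MvPolynomial.notMem_support_iff.1 hd, zero_mul]

/-- polynomials in `κ` whose coefficients are integer polynomials in `τ`: the degrees and the integers are at most `w` -/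
def SR {τ κ : Type} (w : ℕ) (P : MvPolynomial κ (MvPolynomial τ ℤ)) : Prop :=
  P.totalDegree ≤ w ∧ ∀ e, (P.coeff e).totalDegree ≤ w ∧ ∀ e', |(P.coeff e).coeff e'| ≤ w

lemma sr_finite {τ κ : Type} [Fintype τ] [Fintype κ] [DecidableEq τ] [DecidableEq κ] (w : ℕ) :
    {P : MvPolynomial κ (MvPolynomial τ ℤ) | SR w P}.Finite := by
  classical
  let f : MvPolynomial κ (MvPolynomial τ ℤ) → ((κ → Fin (w + 1)) × (τ → Fin (w + 1)) → ℤ) := fun P c =>
    (P.coeff (emb w c.1)).coeff (emb w c.2)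
  refine Set.Finite.of_finite_image (f := f) ((Set.Finite.pi' (t := fun _ => Set.Icc (-(w : ℤ)) w)
    fun _ => Set.finite_Icc _ _).subset ?_) ?_
  · rintro _ ⟨P, hP, rfl⟩ c
    exact abs_le.1 ((hP.2 _).2 _)
  · have key : ∀ P Q : MvPolynomial κ (MvPolynomial τ ℤ), SR w P → SR w Q → f P = f Q → ∀ d d',
        (P.coeff d).coeff d' ≠ 0 → (P.coeff d).coeff d' = (Q.coeff d).coeff d' := by
      intro P Q hP hQ h d d' hne
      have h1 : P.coeff d ≠ 0 := fun h0 => hne (by rw [h0, MvPolynomial.coeff_zero])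
      obtain ⟨e, rfl⟩ := exists_emb hP.1 h1
      obtain ⟨e', rfl⟩ := exists_emb (hP.2 _).1 hne
      exact congrFun h (e, e')
    intro P hP Q hQ h
    refine MvPolynomial.ext _ _ fun d => MvPolynomial.ext _ _ fun d' => ?_
    by_cases h1 : (P.coeff d).coeff d' = 0
    · by_cases h2 : (Q.coeff d).coeff d' = 0
      · rw [h1, h2]
      · exact (key Q P hQ hP h.symm d d' h2).symm
    · exact key P Q hP hQ h d d' h1

/-- the polynomial obtained from `P` by inserting `v` in the coefficients is not zero and vanishes at `y` -/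
def Van {τ κ : Type} (P : MvPolynomial κ (MvPolynomial τ ℤ)) (v : τ → ℝ) (y : κ → ℝ) : Prop :=
  MvPolynomial.map (MvPolynomial.eval₂Hom (Int.castRingHom ℝ) v) P ≠ 0 ∧
    MvPolynomial.eval y (MvPolynomial.map (MvPolynomial.eval₂Hom (Int.castRingHom ℝ) v) P) = 0

/-- insert the data -/
noncomputable def sx {w : ℕ} (ξ : Fin w → ℝ) : MvPolynomial (Fin w ⊕ Fin w) ℤ →+* MvPolynomial (Fin w) ℝ :=
  MvPolynomial.eval₂Hom (Int.castRingHom _) (Sum.elim (fun t => MvPolynomial.X t) (fun t => MvPolynomial.C (ξ t)))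

lemma sx_eval {w : ℕ} (u ξ : Fin w → ℝ) : (MvPolynomial.eval u).comp (sx ξ) =
    MvPolynomial.eval₂Hom (Int.castRingHom ℝ) (Sum.elim u ξ) := by
  refine MvPolynomial.ringHom_ext (fun n => ?_) fun t => ?_
  · simp [sx]
  · rcases t with t | t <;> simp [sx]

lemma sx_dg {w : ℕ} {P : MvPolynomial (Fin (w + 1)) (MvPolynomial (Fin w ⊕ Fin w) ℤ)} (hP : SR w P)
    (ξ : Fin w → ℝ) : DG w (MvPolynomial.map (sx ξ) P) := by
  constructor
  · refine le_trans ?_ hP.1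
    unfold MvPolynomial.totalDegree
    exact Finset.sup_mono (MvPolynomial.support_map_subset _ _)
  · intro e
    rw [MvPolynomial.coeff_map]
    refine (subst_degree _ (fun t => ?_) _).trans (hP.2 e).1
    rcases t with t | t
    · simp [MvPolynomial.totalDegree_X]
    · simp

theorem few_int {γ : ℕ → ℝ} (h : Rare γ) (w : ℕ) (ς η : ℝ) (hς : 0 < ς) (hη : 0 < η) :
    ∃ δ : ℝ, 0 < δ ∧ ∃ r₀ : ℕ, ∀ r : ℕ, r₀ ≤ r → ∀ N : ℕ, 1 ≤ N → r * Real.log r ≤ Real.log N →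
      ∀ b : Fin (w + 1) × Fin (w + 1) → ℕ, Sep r ς b → ∀ ξ : Fin (w + 1) → Fin w → ℝ,
      ({n : ℕ | (1 ≤ n ∧ n ≤ N) ∧ ∃ u : Fin w → ℝ, ∀ i, ∃ y : Fin (w + 1) → ℝ,
        (∀ l, |γ (n + b (i, l)) - y l| ≤ δ * Real.sqrt (Real.log r) / Real.log (γ n)) ∧
          ∃ P, SR w P ∧ Van P (Sum.elim u (ξ i)) y}.ncard : ℝ) ≤ η * N := by
  classical
  have hfin : {F : Fin (w + 1) → MvPolynomial (Fin (w + 1)) (MvPolynomial (Fin w ⊕ Fin w) ℤ) | ∀ i, SR w (F i)}.Finite :=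
    Set.Finite.pi' (t := fun _ => {P : MvPolynomial (Fin (w + 1)) (MvPolynomial (Fin w ⊕ Fin w) ℤ) | SR w P})
      fun _ => sr_finite w
  obtain ⟨C, hC⟩ : ∃ C, C = hfin.toFinset := ⟨_, rfl⟩
  obtain ⟨δ, hδ, r₀, H⟩ := few_gen h (Fin w) (Fin (w + 1)) (by simp) w w ς (η / (C.card + 1)) hς (by positivity)
  refine ⟨δ, hδ, r₀, fun r hr N hN hrN b hb ξ => ?_⟩
  let Q : (Fin (w + 1) → MvPolynomial (Fin (w + 1)) (MvPolynomial (Fin w ⊕ Fin w) ℤ)) → ℕ → Prop := fun F n =>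
    ∃ u : Fin w → ℝ, ∀ i, ∃ y : Fin (w + 1) → ℝ,
        (∀ l, |γ (n + b (i, l)) - y l| ≤ δ * Real.sqrt (Real.log r) / Real.log (γ n)) ∧
          spc u (MvPolynomial.map (sx (ξ i)) (F i)) ≠ 0 ∧
            MvPolynomial.eval y (spc u (MvPolynomial.map (sx (ξ i)) (F i))) = 0
  have hE : ∀ F ∈ C, (({n : ℕ | (1 ≤ n ∧ n ≤ N) ∧ Q F n}).ncard : ℝ) ≤ η / (C.card + 1) * N := by
    intro F hF
    rw [hC, Set.Finite.mem_toFinset] at hF
    exact H r hr N hN hrN b hb _ fun i => sx_dg (hF i) (ξ i)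
  have hsub : {n : ℕ | (1 ≤ n ∧ n ≤ N) ∧ ∃ u : Fin w → ℝ, ∀ i, ∃ y : Fin (w + 1) → ℝ,
        (∀ l, |γ (n + b (i, l)) - y l| ≤ δ * Real.sqrt (Real.log r) / Real.log (γ n)) ∧
          ∃ P, SR w P ∧ Van P (Sum.elim u (ξ i)) y} ⊆ ↑(C.biUnion fun F => (fin_of N (Q F)).toFinset) := by
    rintro n ⟨hn, u, hu⟩
    choose y hy F hF hV using hu
    simp only [coe_biUnion, Set.mem_iUnion]
    refine ⟨F, mem_coe.2 ?_, ?_⟩
    · rw [hC, Set.Finite.mem_toFinset]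
      exact hF
    rw [Set.Finite.coe_toFinset]
    refine ⟨hn, u, fun i => ⟨y i, hy i, ?_⟩⟩
    have e : spc u (MvPolynomial.map (sx (ξ i)) (F i)) =
        MvPolynomial.map (MvPolynomial.eval₂Hom (Int.castRingHom ℝ) (Sum.elim u (ξ i))) (F i) := by
      rw [spc, MvPolynomial.map_map, sx_eval]
    rw [e]
    exact hV i
  have h1 := Set.ncard_le_ncard hsub (finite_toSet _)
  rw [Set.ncard_coe_finset] at h1
  have h2 : ((C.biUnion fun c => (fin_of N (Q c)).toFinset).card : ℝ) ≤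
      ∑ c ∈ C, ({n : ℕ | (1 ≤ n ∧ n ≤ N) ∧ Q c n}.ncard : ℝ) := by
    refine (Nat.cast_le.2 card_biUnion_le).trans (le_of_eq ?_)
    rw [Nat.cast_sum]
    refine sum_congr rfl fun P _ => ?_
    rw [Set.ncard_eq_toFinset_card _ (fin_of N (Q P))]
  have h3 := (Nat.cast_le.2 h1).trans (h2.trans (sum_le_sum hE))
  rw [sum_const, nsmul_eq_mul] at h3
  refine h3.trans ?_
  have hCp : (0 : ℝ) < C.card + 1 := by positivity
  have h4 : (C.card : ℝ) * (η / (C.card + 1) * N) = (C.card / (C.card + 1)) * (η * N) := by ring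
  rw [h4]
  have h5 : (C.card : ℝ) / (C.card + 1) ≤ 1 := by
    rw [div_le_one hCp]
    linarith
  calc (C.card : ℝ) / (C.card + 1) * (η * N) ≤ 1 * (η * N) := mul_le_mul_of_nonneg_right h5 (by positivity)
    _ = η * N := one_mul _

/-- the shifts are at most `L`, and at distances at least `L ^ σ` from each other -/
def Shifts (L : ℕ) (σ : ℝ) {k : ℕ} (b : Fin k → ℕ) : Prop :=
  (∀ l, b l ≤ L) ∧ ∀ l l', l ≠ l' → (L : ℝ) ^ σ ≤ |(b l : ℝ) - b l'|

/-- `y l` is within `ε / log γ_n` of the term number `n + j + b l` -/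
def Near (γ : ℕ → ℝ) (ε : ℝ) (n j : ℕ) {k : ℕ} (b : Fin k → ℕ) (y : Fin k → ℝ) : Prop :=
  ∀ l, |γ (n + (j + b l)) - y l| ≤ ε / Real.log (γ n)

lemma log_ineq {L N : ℕ} (hL : 4 ≤ L) (h : 3 * L * Real.log L ≤ Real.log N) :
    ((2 * L : ℕ) : ℝ) * Real.log ((2 * L : ℕ) : ℝ) ≤ Real.log N := by
  refine le_trans ?_ h
  have hL4 : (4 : ℝ) ≤ L := by exact_mod_cast hL
  push_cast
  rw [Real.log_mul (by norm_num) (by positivity)]
  have h1 : 2 * Real.log 2 ≤ Real.log L := by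
    have h2 : Real.log 4 ≤ Real.log L := Real.log_le_log (by norm_num) hL4
    have h3 : Real.log 4 = 2 * Real.log 2 := by
      rw [show (4 : ℝ) = 2 ^ 2 by norm_num, Real.log_pow]
      norm_num
    linarith
  nlinarith

lemma eps_le {δ : ℝ} (hδ : 0 < δ) {L : ℕ} (hL : 2 ≤ L) : 0 < δ * Real.sqrt (Real.log L) ∧
    δ * Real.sqrt (Real.log L) ≤ δ * Real.sqrt (Real.log ((2 * L : ℕ) : ℝ)) := by
  have hL2 : (2 : ℝ) ≤ L := by exact_mod_cast hL
  have h1 : 0 < Real.log L := Real.log_pos (by linarith)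
  refine ⟨by positivity, mul_le_mul_of_nonneg_left (Real.sqrt_le_sqrt (Real.log_le_log (by linarith) ?_)) hδ.le⟩
  push_cast
  linarith

lemma near_mono {γ : ℕ → ℝ} {n j : ℕ} {ε ε' : ℝ} (h0 : 0 < ε) (hε : ε ≤ ε') {k : ℕ} {b : Fin k → ℕ}
    {y : Fin k → ℝ} (h : Near γ ε n j b y) (l : Fin k) : |γ (n + (j + b l)) - y l| ≤ ε' / Real.log (γ n) := by
  rcases lt_or_ge (Real.log (γ n)) 0 with h2 | h2
  · have h3 := div_neg_of_pos_of_neg h0 h2
    exact absurd ((h l).trans_lt h3) (not_lt.2 (abs_nonneg _))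
  · exact (h l).trans (div_le_div_of_nonneg_right hε h2)

/-- the assertion on the fields with few generators -/
def Good1 (γ : ℕ → ℝ) (δ : ℝ) (w L N : ℕ) : Prop :=
  ∀ b : Fin (w + 1) → ℕ, Shifts L (1 / w) b → ∀ x : Fin (L + 1) → Fin w → ℝ,
    w * {n : ℕ | (1 ≤ n ∧ n ≤ N) ∧ ∃ u : Fin w → ℝ,
      L ≤ w * {j : Fin (L + 1) | ∃ y, Near γ (δ * Real.sqrt (Real.log L)) n j b y ∧
        ∃ P, SR w P ∧ Van P (Sum.elim u (x j)) y}.ncard}.ncard ≤ N

/-- the assertion on the polynomials with unknown coefficients -/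
def Good2 (γ : ℕ → ℝ) (δ : ℝ) (w L N : ℕ) : Prop :=
  ∀ b : Fin (w + 1) → ℕ, Shifts L (1 / w) b → ∀ x : Fin (L + 1) → Fin w → ℝ,
    w * {n : ℕ | (1 ≤ n ∧ n ≤ N) ∧ ∃ P : MvPolynomial (Fin (w + 1)) (MvPolynomial (Fin w) ℝ), DG w P ∧
      L ≤ w * {j : Fin (L + 1) | ∃ y, Near γ (δ * Real.sqrt (Real.log L)) n j b y ∧
        spc (x j) P ≠ 0 ∧ MvPolynomial.eval y (spc (x j) P) = 0}.ncard}.ncard ≤ N

lemma good1 {γ : ℕ → ℝ} (h : Rare γ) (w : ℕ) (hw : 1 ≤ w) : ∃ δ : ℝ, 0 < δ ∧ ∃ L₀ : ℕ, ∀ L : ℕ, L₀ ≤ L →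
    ∀ N : ℕ, 1 ≤ N → 3 * L * Real.log L ≤ Real.log N → Good1 γ δ w L N := by
  classical
  have hw0 : (0 : ℝ) < w := by exact_mod_cast hw
  obtain ⟨η', hη', L₁, H1⟩ := avg (ι := Fin (w + 1)) (w + 1) w hw (1 / w) (by positivity)
  obtain ⟨δ, hδ, r₀, H2⟩ := few_int h w (1 / (2 * w)) η' (by positivity) hη'
  refine ⟨δ, hδ, L₁ + r₀ + 4, fun L hL N hN hLN b hb x => ?_⟩
  obtain ⟨he1, he2⟩ := eps_le hδ (show 2 ≤ L by omega)
  have h1 := H1 L (by omega) N b hb.1 hb.2 (fun j n => ∃ u : Fin w → ℝ, ∀ i, ∃ y : Fin (w + 1) → ℝ,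
    Near γ (δ * Real.sqrt (Real.log L)) n (j i) b y ∧ ∃ P, SR w P ∧ Van P (Sum.elim u (x (j i))) y) fun j hj => by
      refine le_trans ?_ (H2 (2 * L) (by omega) N hN (log_ineq (by omega) hLN)
        (fun p => (j p.1 : ℕ) + b p.2) hj (fun i => x (j i)))
      refine Nat.cast_le.2 (Set.ncard_le_ncard ?_ (fin_of _ _))
      rintro n ⟨hn, u, hu⟩
      refine ⟨hn, u, fun i => ?_⟩
      obtain ⟨y, hy, hd⟩ := hu i
      exact ⟨y, fun l => near_mono he1 he2 hy l, hd⟩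
  have h2 : {n : ℕ | (1 ≤ n ∧ n ≤ N) ∧ ∃ u : Fin w → ℝ,
      L ≤ w * {j : Fin (L + 1) | ∃ y, Near γ (δ * Real.sqrt (Real.log L)) n j b y ∧
        ∃ P, SR w P ∧ Van P (Sum.elim u (x j)) y}.ncard} ⊆
      {n : ℕ | (1 ≤ n ∧ n ≤ N) ∧ ∃ J : Finset (Fin (L + 1)), L ≤ w * J.card ∧
        ∀ j : Fin (w + 1) → Fin (L + 1), (∀ i, j i ∈ J) → ∃ u : Fin w → ℝ, ∀ i, ∃ y : Fin (w + 1) → ℝ,
    Near γ (δ * Real.sqrt (Real.log L)) n (j i) b y ∧ ∃ P, SR w P ∧ Van P (Sum.elim u (x (j i))) y} := by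
    rintro n ⟨hn, u, hu⟩
    refine ⟨hn, {j : Fin (L + 1) | ∃ y, Near γ (δ * Real.sqrt (Real.log L)) n j b y ∧
        ∃ P, SR w P ∧ Van P (Sum.elim u (x j)) y}.toFinset, ?_, fun j hj => ⟨u, fun i => ?_⟩⟩
    · rwa [← Set.ncard_eq_toFinset_card']
    · have := hj i
      rw [Set.mem_toFinset] at this
      exact this
  have h3 := (Nat.cast_le (α := ℝ).2 (Set.ncard_le_ncard h2 (fin_of _ _))).trans h1
  have h4 := mul_le_mul_of_nonneg_left h3 hw0.le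
  have h5 : (w : ℝ) * (1 / w * N) = N := by field_simp
  rw [h5] at h4
  exact_mod_cast h4

/-- the universal polynomial with data `x` -/
noncomputable def uni (w : ℕ) (x : Fin w → ℝ) :
    MvPolynomial (Fin (w + 1)) (MvPolynomial ((Fin (w + 1) → Fin (w + 1)) × (Fin w → Fin (w + 1))) ℝ) :=
  ∑ e : Fin (w + 1) → Fin (w + 1), MvPolynomial.monomial (emb w e)
    (∑ e' : Fin w → Fin (w + 1), MvPolynomial.X (e, e') * MvPolynomial.C (∏ t, x t ^ (e' t : ℕ)))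

lemma uni_dg (w : ℕ) (x : Fin w → ℝ) : DG ((w + 1) * w + 1) (uni w x) := by
  classical
  constructor
  · refine (MvPolynomial.totalDegree_finsetSum _ _).trans (Finset.sup_le fun e _ => ?_)
    refine (MvPolynomial.totalDegree_monomial_le _ _).trans ?_
    have h1 : (emb w e).sum (fun _ n => n) = ∑ s, (e s : ℕ) := by
      rw [Finsupp.sum_fintype _ _ (by simp)]
      rfl
    have h2 : ∑ s, (e s : ℕ) ≤ ∑ _s : Fin (w + 1), w := sum_le_sum fun s _ => by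
      have := (e s).isLt
      omega
    rw [sum_const, card_univ, Fintype.card_fin, smul_eq_mul] at h2
    calc (emb w e).sum (fun _ n => n) = _ := h1
      _ ≤ _ := h2
      _ ≤ _ := by omega
  · intro m
    rw [uni, MvPolynomial.coeff_sum]
    refine (MvPolynomial.totalDegree_finsetSum _ _).trans (Finset.sup_le fun e _ => ?_)
    rw [MvPolynomial.coeff_monomial]
    split_ifs
    · refine (MvPolynomial.totalDegree_finsetSum _ _).trans (Finset.sup_le fun e' _ => ?_)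
      refine (MvPolynomial.totalDegree_mul _ _).trans ?_
      rw [MvPolynomial.totalDegree_X, MvPolynomial.totalDegree_C]
      omega
    · rw [MvPolynomial.totalDegree_zero]
      exact Nat.zero_le _

lemma uni_spc {w : ℕ} {P : MvPolynomial (Fin (w + 1)) (MvPolynomial (Fin w) ℝ)} (hP : DG w P) (x : Fin w → ℝ) :
    spc (fun c : (Fin (w + 1) → Fin (w + 1)) × (Fin w → Fin (w + 1)) => (P.coeff (emb w c.1)).coeff (emb w c.2))
      (uni w x) = spc x P := by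
  classical
  have h1 : ∀ e, MvPolynomial.eval (fun c : (Fin (w + 1) → Fin (w + 1)) × (Fin w → Fin (w + 1)) =>
      (P.coeff (emb w c.1)).coeff (emb w c.2))
      (∑ e' : Fin w → Fin (w + 1), MvPolynomial.X (e, e') * MvPolynomial.C (∏ t, x t ^ (e' t : ℕ))) =
      MvPolynomial.eval x (P.coeff (emb w e)) := by
    intro e
    rw [eval_box w _ (hP.2 _), map_sum]
    refine sum_congr rfl fun e' _ => ?_
    rw [map_mul, MvPolynomial.eval_X, MvPolynomial.eval_C]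
  unfold spc uni
  rw [map_sum]
  simp only [MvPolynomial.map_monomial, h1]
  refine MvPolynomial.ext _ _ fun m => ?_
  rw [MvPolynomial.coeff_sum, MvPolynomial.coeff_map]
  simp only [MvPolynomial.coeff_monomial]
  by_cases hm : ∃ e : Fin (w + 1) → Fin (w + 1), emb w e = m
  · obtain ⟨e, rfl⟩ := hm
    rw [sum_eq_single e]
    · rw [if_pos rfl]
    · intro e' _ he'
      rw [if_neg fun h => he' ((emb w).injective h)]
    · intro h
      exact absurd (mem_univ e) h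
  · have h2 : P.coeff m = 0 := by
      by_contra hne
      exact hm (exists_emb hP.1 hne)
    rw [h2, map_zero]
    refine sum_eq_zero fun e _ => ?_
    rw [if_neg fun h => hm ⟨e, h⟩]

lemma good2 {γ : ℕ → ℝ} (h : Rare γ) (w : ℕ) (hw : 1 ≤ w) : ∃ δ : ℝ, 0 < δ ∧ ∃ L₀ : ℕ, ∀ L : ℕ, L₀ ≤ L →
    ∀ N : ℕ, 1 ≤ N → 3 * L * Real.log L ≤ Real.log N → Good2 γ δ w L N := by
  classical
  have hw0 : (0 : ℝ) < w := by exact_mod_cast hw
  let E := (Fin (w + 1) → Fin (w + 1)) × (Fin w → Fin (w + 1))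
  obtain ⟨η', hη', L₁, H1⟩ := avg (ι := Option E) (w + 1) w hw (1 / w) (by positivity)
  obtain ⟨δ, hδ, r₀, H2⟩ := few_gen h E (Option E) (by rw [Fintype.card_option]; exact Nat.lt_succ_self _) w
    ((w + 1) * w + 1) (1 / (2 * w)) η' (by positivity) hη'
  refine ⟨δ, hδ, L₁ + r₀ + 4, fun L hL N hN hLN b hb x => ?_⟩
  obtain ⟨he1, he2⟩ := eps_le hδ (show 2 ≤ L by omega)
  have h1 := H1 L (by omega) N b hb.1 hb.2 (fun j n => ∃ P : MvPolynomial (Fin (w + 1)) (MvPolynomial (Fin w) ℝ),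
    DG w P ∧ ∀ i, ∃ y : Fin (w + 1) → ℝ,
    Near γ (δ * Real.sqrt (Real.log L)) n (j i) b y ∧ spc (x (j i)) P ≠ 0 ∧
      MvPolynomial.eval y (spc (x (j i)) P) = 0) fun j hj => by
      refine le_trans ?_ (H2 (2 * L) (by omega) N hN (log_ineq (by omega) hLN)
        (fun p => (j p.1 : ℕ) + b p.2) hj (fun i => uni w (x (j i))) fun i => uni_dg w _)
      refine Nat.cast_le.2 (Set.ncard_le_ncard ?_ (fin_of _ _))
      rintro n ⟨hn, P, hPd, hP⟩
      refine ⟨hn, fun c => (P.coeff (emb w c.1)).coeff (emb w c.2), fun i => ?_⟩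
      obtain ⟨y, hy, h2, h3⟩ := hP i
      refine ⟨y, fun l => near_mono he1 he2 hy l, ?_⟩
      rw [uni_spc hPd]
      exact ⟨h2, h3⟩
  have h2 : {n : ℕ | (1 ≤ n ∧ n ≤ N) ∧ ∃ P : MvPolynomial (Fin (w + 1)) (MvPolynomial (Fin w) ℝ), DG w P ∧
      L ≤ w * {j : Fin (L + 1) | ∃ y, Near γ (δ * Real.sqrt (Real.log L)) n j b y ∧
        spc (x j) P ≠ 0 ∧ MvPolynomial.eval y (spc (x j) P) = 0}.ncard} ⊆
      {n : ℕ | (1 ≤ n ∧ n ≤ N) ∧ ∃ J : Finset (Fin (L + 1)), L ≤ w * J.card ∧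
        ∀ j : Option E → Fin (L + 1), (∀ i, j i ∈ J) → ∃ P : MvPolynomial (Fin (w + 1)) (MvPolynomial (Fin w) ℝ),
    DG w P ∧ ∀ i, ∃ y : Fin (w + 1) → ℝ,
    Near γ (δ * Real.sqrt (Real.log L)) n (j i) b y ∧ spc (x (j i)) P ≠ 0 ∧
      MvPolynomial.eval y (spc (x (j i)) P) = 0} := by
    rintro n ⟨hn, P, hP, hu⟩
    refine ⟨hn, {j : Fin (L + 1) | ∃ y, Near γ (δ * Real.sqrt (Real.log L)) n j b y ∧
        spc (x j) P ≠ 0 ∧ MvPolynomial.eval y (spc (x j) P) = 0}.toFinset, ?_, fun j hj => ⟨P, hP, fun i => ?_⟩⟩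
    · rwa [← Set.ncard_eq_toFinset_card']
    · have := hj i
      rw [Set.mem_toFinset] at this
      exact this
  have h3 := (Nat.cast_le (α := ℝ).2 (Set.ncard_le_ncard h2 (fin_of _ _))).trans h1
  have h4 := mul_le_mul_of_nonneg_left h3 hw0.le
  have h5 : (w : ℝ) * (1 / w * N) = N := by field_simp
  rw [h5] at h4
  exact_mod_cast h4

/-- smaller errors -/
lemma good1_mono {γ : ℕ → ℝ} {δ δ' : ℝ} (h0 : 0 < δ) (h : δ ≤ δ') {w L N : ℕ} (hL : 2 ≤ L)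
    (H : Good1 γ δ' w L N) : Good1 γ δ w L N := by
  intro b hb x
  refine le_trans (Nat.mul_le_mul_left _ (Set.ncard_le_ncard ?_ (fin_of _ _))) (H b hb x)
  rintro n ⟨hn, u, hu⟩
  refine ⟨hn, u, hu.trans (Nat.mul_le_mul_left _ (Set.ncard_le_ncard ?_ (Set.toFinite _)))⟩
  rintro j ⟨y, hy, hr⟩
  refine ⟨y, fun l => near_mono (eps_le h0 hL).1 ?_ hy l, hr⟩
  exact mul_le_mul_of_nonneg_right h (Real.sqrt_nonneg _)

lemma good2_mono {γ : ℕ → ℝ} {δ δ' : ℝ} (h0 : 0 < δ) (h : δ ≤ δ') {w L N : ℕ} (hL : 2 ≤ L)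
    (H : Good2 γ δ' w L N) : Good2 γ δ w L N := by
  intro b hb x
  refine le_trans (Nat.mul_le_mul_left _ (Set.ncard_le_ncard ?_ (fin_of _ _))) (H b hb x)
  rintro n ⟨hn, P, hP, hu⟩
  refine ⟨hn, P, hP, hu.trans (Nat.mul_le_mul_left _ (Set.ncard_le_ncard ?_ (Set.toFinite _)))⟩
  rintro j ⟨y, hy, hr⟩
  refine ⟨y, fun l => near_mono (eps_le h0 hL).1 ?_ hy l, hr⟩
  exact mul_le_mul_of_nonneg_right h (Real.sqrt_nonneg _)

/-- **the final form** -/
theorem last {γ : ℕ → ℝ} (h : Rare γ) (w : ℕ) (hw : 1 ≤ w) : ∃ δ : ℝ, 0 < δ ∧ ∃ L₀ : ℕ, ∀ L : ℕ, L₀ ≤ L →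
    ∀ N : ℕ, 1 ≤ N → 3 * L * Real.log L ≤ Real.log N → Good1 γ δ w L N ∧ Good2 γ δ w L N := by
  obtain ⟨δ₁, hδ₁, L₁, h1⟩ := good1 h w hw
  obtain ⟨δ₂, hδ₂, L₂, h2⟩ := good2 h w hw
  refine ⟨min δ₁ δ₂, lt_min hδ₁ hδ₂, L₁ + L₂ + 2, fun L hL N hN hLN => ⟨?_, ?_⟩⟩
  · exact good1_mono (lt_min hδ₁ hδ₂) (min_le_left _ _) (by omega) (h1 L (by omega) N hN hLN)
  · exact good2_mono (lt_min hδ₁ hδ₂) (min_le_right _ _) (by omega) (h2 L (by omega) N hN hLN)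

end Pool.Agent.U723.MR
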