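import Pool.Agent.U723.MR.Tri

/-!
# Polynomial relations at several places with common parameters
-/

set_option autoImplicit false

namespace Pool.Agent.U723.MR

open Finset
open Pool.Agent.U723.TD (Sep Close Rare Simple Root AlgOver simple_finite fin_of IsAlg few)

/-- the system of equations for the choice `T` of equations at the places -/
noncomputable def sys2 {σ ι : Type} {k : ℕ} (T : ι → Fin (k + 1) × Polynomial (MvPolynomial (σ ⊕ Fin k) ℝ))
    (ip : ι × Fin (k + 1)) : Polynomial (MvPolynomial (σ ⊕ (ι × Fin k)) ℝ) :=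
  Fin.insertNth (α := fun _ => Polynomial (MvPolynomial (σ ⊕ (ι × Fin k)) ℝ)) (T ip.1).1
    ((T ip.1).2.map ((MvPolynomial.rename (Sum.map id fun m => (ip.1, m)) :
      MvPolynomial (σ ⊕ Fin k) ℝ →ₐ[ℝ] MvPolynomial (σ ⊕ (ι × Fin k)) ℝ) :
      MvPolynomial (σ ⊕ Fin k) ℝ →+* MvPolynomial (σ ⊕ (ι × Fin k)) ℝ))
    (fun m => Polynomial.X - Polynomial.C (MvPolynomial.X (Sum.inr (ip.1, m)))) ip.2

lemma sys2_same {σ ι : Type} {k : ℕ} (T : ι → Fin (k + 1) × Polynomial (MvPolynomial (σ ⊕ Fin k) ℝ)) (i : ι) :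
    sys2 T (i, (T i).1) = (T i).2.map ((MvPolynomial.rename (Sum.map id fun m => (i, m)) :
      MvPolynomial (σ ⊕ Fin k) ℝ →ₐ[ℝ] MvPolynomial (σ ⊕ (ι × Fin k)) ℝ) :
      MvPolynomial (σ ⊕ Fin k) ℝ →+* MvPolynomial (σ ⊕ (ι × Fin k)) ℝ) := by
  unfold sys2
  exact Fin.insertNth_apply_same _ _ _

lemma sys2_other {σ ι : Type} {k : ℕ} (T : ι → Fin (k + 1) × Polynomial (MvPolynomial (σ ⊕ Fin k) ℝ)) (i : ι)
    (m : Fin k) : sys2 T (i, (T i).1.succAbove m) =
      Polynomial.X - Polynomial.C (MvPolynomial.X (Sum.inr (i, m))) := by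
  unfold sys2
  exact Fin.insertNth_apply_succAbove _ _ _ _

/-- **relations at several places**: fewer parameters than places -/
theorem few_gen {γ : ℕ → ℝ} (h : Rare γ) (σ ι : Type) [Fintype σ] [Fintype ι]
    (hs : Fintype.card σ < Fintype.card ι) (k d : ℕ) (ς η : ℝ) (hς : 0 < ς) (hη : 0 < η) :
    ∃ δ : ℝ, 0 < δ ∧ ∃ r₀ : ℕ, ∀ r : ℕ, r₀ ≤ r → ∀ N : ℕ, 1 ≤ N → r * Real.log r ≤ Real.log N →
      ∀ b : ι × Fin (k + 1) → ℕ, Sep r ς b → ∀ G : ι → MvPolynomial (Fin (k + 1)) (MvPolynomial σ ℝ),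
      (∀ i, DG d (G i)) →
      ({n : ℕ | (1 ≤ n ∧ n ≤ N) ∧ ∃ u : σ → ℝ, ∀ i, ∃ y : Fin (k + 1) → ℝ,
        (∀ l, |γ (n + b (i, l)) - y l| ≤ δ * Real.sqrt (Real.log r) / Real.log (γ n)) ∧
          spc u (G i) ≠ 0 ∧ MvPolynomial.eval y (spc u (G i)) = 0}.ncard : ℝ) ≤ η * N := by
  classical
  obtain ⟨I, hI, tr⟩ := tri d k
  obtain ⟨c, hc⟩ : ∃ c : ℝ, c = Fintype.card (ι → I) + 1 := ⟨_, rfl⟩
  have hc0 : 0 < c := by rw [hc]; positivity
  obtain ⟨δ, hδ, r₀, H⟩ := few_type h (ι × Fin (k + 1)) (σ ⊕ (ι × Fin k)) (by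
    simp only [Fintype.card_sum, Fintype.card_prod, Fintype.card_fin]
    nlinarith) (2 * d + 1) ς (η / c) hς (by positivity)
  refine ⟨δ, hδ, r₀, fun r hr N hN hrN b hb G hG => ?_⟩
  have key := fun i => tr σ (G i) (hG i)
  choose T hT1 hT2 using key
  let Q : (ι → I) → ℕ → Prop := fun t n =>
    ∃ (v : σ ⊕ (ι × Fin k) → ℝ) (y : ι × Fin (k + 1) → ℝ),
        Close γ (δ * Real.sqrt (Real.log r)) n b y ∧
        ∀ i, (sys2 (fun i => T i (t i)) i).map (MvPolynomial.eval v) ≠ 0 ∧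
          ((sys2 (fun i => T i (t i)) i).map (MvPolynomial.eval v)).eval (y i) = 0
  have hE : ∀ t ∈ (univ : Finset (ι → I)), (({n : ℕ | (1 ≤ n ∧ n ≤ N) ∧ Q t n}).ncard : ℝ) ≤ η / c * N := by
    intro t _
    refine H r hr N hN hrN b hb _ fun ip => ?_
    obtain ⟨i, p⟩ := ip
    rcases Fin.eq_self_or_eq_succAbove (T i (t i)).1 p with rfl | ⟨m, rfl⟩
    · rw [sys2_same (fun i => T i (t i))]
      refine ⟨Polynomial.natDegree_map_le.trans ((hT1 i (t i)).1.trans (by omega)), fun j => ?_⟩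
      rw [Polynomial.coeff_map]
      exact (MvPolynomial.totalDegree_rename_le _ _).trans (((hT1 i (t i)).2 j).trans (by omega))
    · rw [sys2_other (fun i => T i (t i))]
      refine ⟨(Polynomial.natDegree_X_sub_C _).le.trans (by omega), fun j => ?_⟩
      rw [Polynomial.coeff_sub, Polynomial.coeff_X, Polynomial.coeff_C]
      refine (MvPolynomial.totalDegree_sub _ _).trans (max_le ?_ ?_)
      · split_ifs <;> simp
      · split_ifs
        · rw [MvPolynomial.totalDegree_X]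
          omega
        · simp
  have hsub : {n : ℕ | (1 ≤ n ∧ n ≤ N) ∧ ∃ u : σ → ℝ, ∀ i, ∃ y : Fin (k + 1) → ℝ,
        (∀ l, |γ (n + b (i, l)) - y l| ≤ δ * Real.sqrt (Real.log r) / Real.log (γ n)) ∧
          spc u (G i) ≠ 0 ∧ MvPolynomial.eval y (spc u (G i)) = 0} ⊆
      ↑((univ : Finset (ι → I)).biUnion fun t => (fin_of N (Q t)).toFinset) := by
    rintro n ⟨hn, u, hu⟩
    choose y hy h1 h0 using hu
    have key := fun i => hT2 i u (y i) (h1 i) (h0 i)
    choose t ht using key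
    simp only [coe_biUnion, Set.mem_iUnion]
    refine ⟨t, mem_coe.2 (mem_univ _), ?_⟩
    rw [Set.Finite.coe_toFinset]
    refine ⟨hn, Sum.elim u fun im => y im.1 ((T im.1 (t im.1)).1.succAbove im.2), fun ip => y ip.1 ip.2,
      fun ip => hy ip.1 ip.2, fun ip => ?_⟩
    obtain ⟨i, p⟩ := ip
    have e0 : (MvPolynomial.eval (Sum.elim u fun im : ι × Fin k =>
        y im.1 ((T im.1 (t im.1)).1.succAbove im.2))).comp ((MvPolynomial.rename (Sum.map id fun m => (i, m)) :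
      MvPolynomial (σ ⊕ Fin k) ℝ →ₐ[ℝ] MvPolynomial (σ ⊕ (ι × Fin k)) ℝ) :
      MvPolynomial (σ ⊕ Fin k) ℝ →+* MvPolynomial (σ ⊕ (ι × Fin k)) ℝ) =
        MvPolynomial.eval (Sum.elim u fun m => y i ((T i (t i)).1.succAbove m)) := by
      refine MvPolynomial.ringHom_ext (fun c => ?_) fun s => ?_
      · simp
      · rcases s with s | s <;> simp
    rcases Fin.eq_self_or_eq_succAbove (T i (t i)).1 p with rfl | ⟨m, rfl⟩
    · rw [sys2_same (fun i => T i (t i)), Polynomial.map_map, e0]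
      exact ht i
    · rw [sys2_other (fun i => T i (t i)), Polynomial.map_sub, Polynomial.map_X, Polynomial.map_C,
        MvPolynomial.eval_X]
      refine ⟨Polynomial.X_sub_C_ne_zero _, ?_⟩
      simp
  have h1 := Set.ncard_le_ncard hsub (finite_toSet _)
  rw [Set.ncard_coe_finset] at h1
  have h2 : (((univ : Finset (ι → I)).biUnion fun t => (fin_of N (Q t)).toFinset).card : ℝ) ≤
      ∑ t ∈ (univ : Finset (ι → I)), ({n : ℕ | (1 ≤ n ∧ n ≤ N) ∧ Q t n}.ncard : ℝ) := by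
    refine (Nat.cast_le.2 card_biUnion_le).trans (le_of_eq ?_)
    rw [Nat.cast_sum]
    refine sum_congr rfl fun P _ => ?_
    rw [Set.ncard_eq_toFinset_card _ (fin_of N (Q P))]
  have h3 := (Nat.cast_le.2 h1).trans (h2.trans (sum_le_sum hE))
  rw [sum_const, nsmul_eq_mul, card_univ] at h3
  refine h3.trans ?_
  have h4 : (Fintype.card (ι → I) : ℝ) * (η / c * N) = (Fintype.card (ι → I) / c) * (η * N) := by ring
  rw [h4]
  have h5 : (Fintype.card (ι → I) : ℝ) / c ≤ 1 := by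
    rw [div_le_one hc0, hc]
    linarith
  calc (Fintype.card (ι → I) : ℝ) / c * (η * N) ≤ 1 * (η * N) := mul_le_mul_of_nonneg_right h5 (by positivity)
    _ = η * N := one_mul _

end Pool.Agent.U723.MR
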