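import Pool.Agent.U723.MR.Few

/-!
# From a polynomial relation to an algebraic number

If a nonzero polynomial vanishes at a point, then one of the coordinates is a root of a nonzero polynomial the
coefficients of which are polynomials in the other coordinates. The equation is one of finitely many, which
depend on the polynomial only.
-/

set_option autoImplicit false

namespace Pool.Agent.U723.MR

open Finset

/-- insert `u` in the coefficients -/
noncomputable def spc {σ κ : Type} (u : σ → ℝ) (G : MvPolynomial κ (MvPolynomial σ ℝ)) : MvPolynomial κ ℝ :=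
  MvPolynomial.map (MvPolynomial.eval u) G

/-- the degrees are at most `d` -/
def DG {σ κ : Type} (d : ℕ) (G : MvPolynomial κ (MvPolynomial σ ℝ)) : Prop :=
  G.totalDegree ≤ d ∧ ∀ e, (G.coeff e).totalDegree ≤ d

/-- as a polynomial in all variables -/
noncomputable def fl {σ κ : Type} : MvPolynomial κ (MvPolynomial σ ℝ) →+* MvPolynomial (σ ⊕ κ) ℝ :=
  MvPolynomial.eval₂Hom ((MvPolynomial.rename Sum.inl : MvPolynomial σ ℝ →ₐ[ℝ] MvPolynomial (σ ⊕ κ) ℝ) :
    MvPolynomial σ ℝ →+* MvPolynomial (σ ⊕ κ) ℝ) (fun m => MvPolynomial.X (Sum.inr m))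

lemma eval_fl {σ κ : Type} (u : σ → ℝ) (z : κ → ℝ) (G : MvPolynomial κ (MvPolynomial σ ℝ)) :
    MvPolynomial.eval (Sum.elim u z) (fl G) = MvPolynomial.eval z (spc u G) := by
  have h : (MvPolynomial.eval (Sum.elim u z)).comp fl =
      (MvPolynomial.eval z).comp (MvPolynomial.map (MvPolynomial.eval u) :
        MvPolynomial κ (MvPolynomial σ ℝ) →+* MvPolynomial κ ℝ) := by
    refine MvPolynomial.ringHom_ext (fun c => ?_) fun m => ?_
    · simp only [fl, RingHom.comp_apply, MvPolynomial.coe_eval₂Hom, MvPolynomial.eval₂_C, RingHom.coe_coe,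
        MvPolynomial.eval_rename, MvPolynomial.map_C, MvPolynomial.eval_C]
      rfl
    · simp [fl]
  exact DFunLike.congr_fun h G

lemma fl_degree {σ κ : Type} [Fintype κ] {d : ℕ} {G : MvPolynomial κ (MvPolynomial σ ℝ)} (hG : DG d G) :
    (fl G).totalDegree ≤ 2 * d := by
  classical
  rw [fl, MvPolynomial.coe_eval₂Hom, MvPolynomial.eval₂_eq']
  refine (MvPolynomial.totalDegree_finsetSum _ _).trans (Finset.sup_le fun e he => ?_)
  refine (MvPolynomial.totalDegree_mul _ _).trans ?_
  have h1 : (((MvPolynomial.rename Sum.inl : MvPolynomial σ ℝ →ₐ[ℝ] MvPolynomial (σ ⊕ κ) ℝ) :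
    MvPolynomial σ ℝ →+* MvPolynomial (σ ⊕ κ) ℝ) (G.coeff e)).totalDegree ≤ d :=
    (MvPolynomial.totalDegree_rename_le _ _).trans (hG.2 e)
  have h2 : (∏ i, (MvPolynomial.X (Sum.inr i) : MvPolynomial (σ ⊕ κ) ℝ) ^ e i).totalDegree ≤ d := by
    refine (MvPolynomial.totalDegree_finsetProd _ _).trans ?_
    refine le_trans (sum_le_sum (g := fun i => e i) fun i _ => ?_) ?_
    · refine (MvPolynomial.totalDegree_pow _ _).trans ?_
      rw [MvPolynomial.totalDegree_X, mul_one]
    · refine le_trans ?_ ((MvPolynomial.le_totalDegree he).trans hG.1)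
      rw [Finsupp.sum_fintype _ _ (by simp)]
  omega

lemma spc_succ {σ : Type} {k : ℕ} (u : σ → ℝ) (G : MvPolynomial (Fin (k + 1)) (MvPolynomial σ ℝ)) :
    MvPolynomial.finSuccEquiv ℝ k (spc u G) =
      (MvPolynomial.finSuccEquiv (MvPolynomial σ ℝ) k G).map (MvPolynomial.map (MvPolynomial.eval u)) := by
  ext i e
  rw [MvPolynomial.finSuccEquiv_coeff_coeff, Polynomial.coeff_map, MvPolynomial.coeff_map,
    MvPolynomial.finSuccEquiv_coeff_coeff, spc, MvPolynomial.coeff_map]

lemma coeff_dg {σ : Type} {k d : ℕ} {G : MvPolynomial (Fin (k + 1)) (MvPolynomial σ ℝ)} (hG : DG d G) (i : ℕ) :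
    DG d ((MvPolynomial.finSuccEquiv (MvPolynomial σ ℝ) k G).coeff i) := by
  constructor
  · by_cases h : (MvPolynomial.finSuccEquiv (MvPolynomial σ ℝ) k G).coeff i = 0
    · rw [h, MvPolynomial.totalDegree_zero]
      exact Nat.zero_le _
    · have := MvPolynomial.totalDegree_coeff_finSuccEquiv_add_le G i h
      have := hG.1
      omega
  · intro e
    rw [MvPolynomial.finSuccEquiv_coeff_coeff]
    exact hG.2 _

/-- the equation of the first coordinate -/
noncomputable def F0 {σ : Type} {k : ℕ} (G : MvPolynomial (Fin (k + 1)) (MvPolynomial σ ℝ)) :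
    Polynomial (MvPolynomial (σ ⊕ Fin k) ℝ) :=
  (MvPolynomial.finSuccEquiv (MvPolynomial σ ℝ) k G).map fl

lemma F0_map {σ : Type} {k : ℕ} (G : MvPolynomial (Fin (k + 1)) (MvPolynomial σ ℝ)) (u : σ → ℝ) (z : Fin k → ℝ) :
    (F0 G).map (MvPolynomial.eval (Sum.elim u z)) =
      (MvPolynomial.finSuccEquiv ℝ k (spc u G)).map (MvPolynomial.eval z) := by
  rw [spc_succ, F0, Polynomial.map_map, Polynomial.map_map]
  congr 1
  exact RingHom.ext fun c => eval_fl u z c

lemma F0_degree {σ : Type} {k d : ℕ} {G : MvPolynomial (Fin (k + 1)) (MvPolynomial σ ℝ)} (hG : DG d G) :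
    (F0 G).natDegree ≤ 2 * d ∧ ∀ j, ((F0 G).coeff j).totalDegree ≤ 2 * d := by
  constructor
  · refine Polynomial.natDegree_map_le.trans ?_
    rw [MvPolynomial.natDegree_finSuccEquiv]
    have := (MvPolynomial.degreeOf_le_totalDegree G 0).trans hG.1
    omega
  · intro j
    rw [F0, Polynomial.coeff_map]
    exact fl_degree (coeff_dg hG j)

/-- `t` is an equation for one of the coordinates -/
def Eqn {σ : Type} {k : ℕ} (t : Fin (k + 1) × Polynomial (MvPolynomial (σ ⊕ Fin k) ℝ)) (u : σ → ℝ)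
    (y : Fin (k + 1) → ℝ) : Prop :=
  t.2.map (MvPolynomial.eval (Sum.elim u fun m => y (t.1.succAbove m))) ≠ 0 ∧
    (t.2.map (MvPolynomial.eval (Sum.elim u fun m => y (t.1.succAbove m)))).eval (y t.1) = 0

lemma first {σ : Type} {k : ℕ} (G : MvPolynomial (Fin (k + 1)) (MvPolynomial σ ℝ)) (u : σ → ℝ)
    (y : Fin (k + 1) → ℝ) (h0 : MvPolynomial.eval y (spc u G) = 0)
    (h : (MvPolynomial.finSuccEquiv ℝ k (spc u G)).map (MvPolynomial.eval fun m => y m.succ) ≠ 0) :
    Eqn (0, F0 G) u y := by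
  unfold Eqn
  simp only [Fin.zero_succAbove]
  rw [F0_map]
  refine ⟨h, ?_⟩
  rw [← MvPolynomial.eval_eq_eval_mv_eval', ← h0]
  congr 1
  congr 1
  funext i
  refine Fin.cases ?_ (fun m => ?_) i
  · rfl
  · rfl

theorem tri (d : ℕ) : ∀ k : ℕ, ∃ (I : Type) (_ : Fintype I), ∀ (σ : Type)
    (G : MvPolynomial (Fin (k + 1)) (MvPolynomial σ ℝ)), DG d G →
    ∃ T : I → Fin (k + 1) × Polynomial (MvPolynomial (σ ⊕ Fin k) ℝ),
      (∀ t, (T t).2.natDegree ≤ 2 * d ∧ ∀ j, ((T t).2.coeff j).totalDegree ≤ 2 * d) ∧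
      ∀ (u : σ → ℝ) (y : Fin (k + 1) → ℝ), spc u G ≠ 0 → MvPolynomial.eval y (spc u G) = 0 → ∃ t, Eqn (T t) u y
  | 0 => by
    refine ⟨Unit, inferInstance, fun σ G hG => ⟨fun _ => (0, F0 G), fun _ => F0_degree hG, fun u y h1 h0 => ?_⟩⟩
    refine ⟨(), first G u y h0 fun h => h1 ?_⟩
    have h2 : MvPolynomial.finSuccEquiv ℝ 0 (spc u G) = 0 := by
      ext i e
      have h3 := congrArg (fun p => Polynomial.coeff p i) h
      simp only [Polynomial.coeff_map, Polynomial.coeff_zero] at h3
      rw [MvPolynomial.eq_C_of_isEmpty ((MvPolynomial.finSuccEquiv ℝ 0 (spc u G)).coeff i), MvPolynomial.eval_C] at h3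
      rw [MvPolynomial.eq_C_of_isEmpty ((MvPolynomial.finSuccEquiv ℝ 0 (spc u G)).coeff i), h3]
      simp
    exact (MvPolynomial.finSuccEquiv ℝ 0).injective (by rw [h2, map_zero])
  | k + 1 => by
    obtain ⟨I, hI, H⟩ := tri d k
    refine ⟨Option (Fin (d + 1) × I), inferInstance, fun σ G hG => ?_⟩
    have key := fun i : Fin (d + 1) => H σ _ (coeff_dg hG i)
    choose T hT1 hT2 using key
    refine ⟨fun t => t.elim (0, F0 G) fun it => ((T it.1 it.2).1.succ, (T it.1 it.2).2.map
      ((MvPolynomial.rename (Sum.map id Fin.succ) : MvPolynomial (σ ⊕ Fin k) ℝ →ₐ[ℝ] MvPolynomial (σ ⊕ Fin (k + 1)) ℝ) :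
        MvPolynomial (σ ⊕ Fin k) ℝ →+* MvPolynomial (σ ⊕ Fin (k + 1)) ℝ)), fun t => ?_, fun u y h1 h0 => ?_⟩
    · rcases t with _ | ⟨i, t⟩
      · exact F0_degree hG
      · refine ⟨Polynomial.natDegree_map_le.trans (hT1 i t).1, fun j => ?_⟩
        change MvPolynomial.totalDegree (Polynomial.coeff (Polynomial.map _ _) j) ≤ _
        rw [Polynomial.coeff_map]
        exact (MvPolynomial.totalDegree_rename_le _ _).trans ((hT1 i t).2 j)
    · by_cases h : (MvPolynomial.finSuccEquiv ℝ (k + 1) (spc u G)).map (MvPolynomial.eval fun m => y m.succ) = 0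
      · have h2 : MvPolynomial.finSuccEquiv ℝ (k + 1) (spc u G) ≠ 0 := by
          intro h3
          apply h1
          exact (MvPolynomial.finSuccEquiv ℝ (k + 1)).injective (by rw [h3, map_zero])
        obtain ⟨i, hi⟩ : ∃ i, (MvPolynomial.finSuccEquiv ℝ (k + 1) (spc u G)).coeff i ≠ 0 := by
          by_contra hcon
          push Not at hcon
          exact h2 (Polynomial.ext fun i => by rw [hcon i, Polynomial.coeff_zero])
        have hid : i < d + 1 := by
          have h3 := Polynomial.le_natDegree_of_ne_zero hi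
          rw [spc_succ] at h3
          have h4 := h3.trans Polynomial.natDegree_map_le
          rw [MvPolynomial.natDegree_finSuccEquiv] at h4
          have := (MvPolynomial.degreeOf_le_totalDegree G 0).trans hG.1
          omega
        have e1 : (MvPolynomial.finSuccEquiv ℝ (k + 1) (spc u G)).coeff i =
            spc u ((MvPolynomial.finSuccEquiv (MvPolynomial σ ℝ) (k + 1) G).coeff i) := by
          rw [spc_succ, Polynomial.coeff_map]
          rfl
        have h3 : MvPolynomial.eval (fun m => y m.succ)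
            (spc u ((MvPolynomial.finSuccEquiv (MvPolynomial σ ℝ) (k + 1) G).coeff i)) = 0 := by
          rw [← e1]
          have h4 := congrArg (fun p => Polynomial.coeff p i) h
          simpa only [Polynomial.coeff_map, Polynomial.coeff_zero] using h4
        rw [e1] at hi
        obtain ⟨t, ht⟩ := hT2 ⟨i, hid⟩ u (fun m => y m.succ) hi h3
        refine ⟨some (⟨i, hid⟩, t), ?_⟩
        obtain ⟨ht1, ht2⟩ := ht
        have e2 : ((MvPolynomial.eval (Sum.elim u fun m => y ((T ⟨i, hid⟩ t).1.succ.succAbove m))).comp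
          ((MvPolynomial.rename (Sum.map id Fin.succ) : MvPolynomial (σ ⊕ Fin k) ℝ →ₐ[ℝ]
            MvPolynomial (σ ⊕ Fin (k + 1)) ℝ) : MvPolynomial (σ ⊕ Fin k) ℝ →+* MvPolynomial (σ ⊕ Fin (k + 1)) ℝ)) =
          MvPolynomial.eval (Sum.elim u fun m => y ((T ⟨i, hid⟩ t).1.succAbove m).succ) := by
          refine MvPolynomial.ringHom_ext (fun c => ?_) fun s => ?_
          · simp
          · rcases s with s | s
            · simp
            · simp [Fin.succ_succAbove_succ]
        show (Polynomial.map _ (Polynomial.map _ _)) ≠ 0 ∧ Polynomial.eval _ (Polynomial.map _ (Polynomial.map _ _)) = 0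
        rw [Polynomial.map_map]
        simp only [Option.elim]
        rw [e2]
        exact ⟨ht1, ht2⟩
      · exact ⟨none, first G u y h0 h⟩

end Pool.Agent.U723.MR
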